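import Pool.Agent.Q30.LimMain

namespace Pool.Agent.Results.MP_55c352_al.PowersFail

open Q30.Lim

/-- There are a Lorentzian geometric Coxeter system and a space-like limit direction which does not
arise through powers of any element. -/
theorem result : ∃ (n : ℕ) (S : GeomSystem n), S.Lorentzian ∧ ∃ x : Fin n → ℝ,
    S.SpaceLike x ∧ S.LimitDirection x ∧ ∀ w : S.M.Group, ¬ S.ArisesThroughPowers w x :=
  ⟨3, sys, lorentz, Pi.single 0 1, space, limit, not_arises⟩

end Pool.Agent.Results.MP_55c352_al.PowersFail
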